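import Mathlib
import Pool.Agent.W980.St.Final
import Pool.Agent.W980.St.Upper

/-!
# Counterexample computations of parallel machines do not find the largest model of a CNF formula
-/

set_option autoImplicit false

namespace Pool.Agent.Results.MP_2b5695_lc.ParallelCounterexamples

open SmallDepth Filter Pool.Agent.W980.St

/-- The optimization problem is: the feasible solutions of a CNF formula `x` are the trivial
solution `none` and the models of `x`; the models are ordered lexicographically and are better
than the trivial solution. A student presents solutions, and an honest teacher answers every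
solution that is not optimal with a better feasible solution (with anything, if the presented
solution is not feasible). The student is an ideal parallel random access machine.

1. If `C T log (n + k) ≤ w ≤ n` and `M ≥ n 2 ^ w`, then for every student with at most
`2 ^ ((1 - ε) n)` processors, which makes `T` steps before every presentation, there are a formula
with `n` variables and `M` clauses of width at most `w` and an honest teacher such that none of
the first `k + 1` presented solutions is optimal (`k` questions and the final output).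

2. `T n log n = o(n)`, `(2 - δ) ^ n e M ^ e` processors and `n ^ c` questions.

3. With `2 ^ n` processors for every clause, two steps and no question are enough. -/
theorem result :
    (∀ ε : ℝ, 0 < ε → ∀ K : ℕ, ∃ C : ℝ, 0 < C ∧
      ∀ n T k w M : ℕ, 2 ≤ n → 1 ≤ T → C * (T * Real.log (n + k)) ≤ w → w ≤ n → n * 2 ^ w ≤ M →
      ∀ (P : ℕ) (D : Student (Fin M × Fin n × Bool) (Option (Fin n → Bool)) P),
        (P : ℝ) ≤ 2 ^ ((1 - ε) * n) → D.Lists (2 ^ (K * n)) →
        ∃ x teacher, WidthLe x w ∧ Honest x teacher ∧
          ∀ i ≤ k, ¬ Optimal x (D.solution T teacher x i)) ∧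
    (∀ δ : ℝ, 0 < δ → δ < 2 → ∀ (K c : ℕ) (T : ℕ → ℕ), (∀ n, 1 ≤ T n) →
      (fun n : ℕ => (T n : ℝ) * Real.log n) =o[atTop] (fun n : ℕ => (n : ℝ)) →
      ∃ w : ℕ → ℕ, (∃ C : ℝ, ∀ n, 2 ≤ n → (w n : ℝ) ≤ C * (T n * Real.log n)) ∧
        ∀ e : ℕ, ∀ᶠ n : ℕ in atTop, ∀ (P : ℕ)
          (D : Student (Fin (n * 2 ^ w n) × Fin n × Bool) (Option (Fin n → Bool)) P),
          (P : ℝ) ≤ (2 - δ) ^ n * (e * (((n * 2 ^ w n : ℕ) : ℝ)) ^ e) →
          D.Lists (2 ^ (K * n)) →
          ∃ x teacher, WidthLe x (w n) ∧ Honest x teacher ∧
            ∀ i ≤ n ^ c, ¬ Optimal x (D.solution (T n) teacher x i)) ∧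
    (∀ n M : ℕ, 1 ≤ M →
      ∃ D : Student (Fin M × Fin n × Bool) (Option (Fin n → Bool)) (2 ^ n * M),
        D.Lists (n + 1) ∧ ∀ x teacher, Optimal x (D.solution 2 teacher x 0)) :=
  ⟨st_cnf, st_asym, upper⟩

end Pool.Agent.Results.MP_2b5695_lc.ParallelCounterexamples
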